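import Pool.Agent.Helper23.KU.Mm
import Pool.Agent.Helper15.KR.Inner
import Pool.Agent.Helper98.KR.Bdry

/-!
# KR, piece E: all small variations have norm at most one
-/

set_option autoImplicit false
set_option linter.unusedVariables false

namespace Pool.Agent.Helper23.KU

open Polynomial Filter Topology Metric MeasureTheory Set
open Pool.Agent.Helper23.KB (Sph Dom KF Ext sq)


/-- maximum principle on the annulus -/
theorem ann23 {c : ℝ} {A B : ℂ → ℂ}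
    (hA : DifferentiableOn ℂ A (ball 0 1)) (hB : DifferentiableOn ℂ B (ball 0 1))
    (hB0 : ∀ z : ℂ, c ≤ ‖z‖ → ‖z‖ < 1 → B z ≠ 0) (hc : ∀ z : ℂ, ‖z‖ = c → ‖A z‖ ≤ ‖B z‖)
    (hlim : ∀ δ > 0, ∃ r < 1, ∀ z : ℂ, r ≤ ‖z‖ → ‖z‖ < 1 → ‖A z‖ ≤ (1 + δ) * ‖B z‖) :
    ∀ z : ℂ, c ≤ ‖z‖ → ‖z‖ < 1 → ‖A z‖ ≤ ‖B z‖ := by
  intro z hz hz1
  have hBz : 0 < ‖B z‖ := norm_pos_iff.2 (hB0 z hz hz1)
  have hV : IsOpen (ball (0 : ℂ) 1 ∩ B ⁻¹' {0}ᶜ) :=
    hB.continuousOn.isOpen_inter_preimage isOpen_ball isOpen_compl_singleton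
  have hG : DifferentiableOn ℂ (fun w => A w / B w) (ball (0 : ℂ) 1 ∩ B ⁻¹' {0}ᶜ) :=
    (hA.mono inter_subset_left).div (hB.mono inter_subset_left) fun w hw => hw.2
  have hle : ‖A z / B z‖ ≤ 1 := by
    refine le_of_forall_pos_le_add fun δ hδ => ?_
    obtain ⟨r, hr, Hr⟩ := hlim δ hδ
    have hr1 : max ‖z‖ r < 1 := max_lt hz1 hr
    refine max_annulus (c := c) (r := max ‖z‖ r) (V := ball (0 : ℂ) 1 ∩ B ⁻¹' {0}ᶜ)
      (G := fun w => A w / B w) (fun w hw hw1 => ⟨mem_ball_zero_iff.2 (hw1.trans_lt hr1),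
        hB0 w hw (hw1.trans_lt hr1)⟩) hV hG ?_ hz (le_max_left _ _)
    intro w hw
    rcases hw with hw | hw
    · have h2 : ‖w‖ < 1 := by rw [hw]; exact hz.trans_lt hz1
      have h3 := norm_pos_iff.2 (hB0 w hw.ge h2)
      show ‖A w / B w‖ ≤ 1 + δ
      rw [norm_div, div_le_iff₀ h3]
      have := hc w hw
      nlinarith
    · have h2 : ‖w‖ < 1 := by rw [hw]; exact hr1
      have h4 : c ≤ ‖w‖ := by rw [hw]; exact hz.trans (le_max_left _ _)
      have h3 := norm_pos_iff.2 (hB0 w h4 h2)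
      show ‖A w / B w‖ ≤ 1 + δ
      rw [norm_div, div_le_iff₀ h3]
      exact Hr w (by rw [hw]; exact le_max_right _ _) h2
  rwa [norm_div, div_le_one hBz] at hle

/-! E. all small variations have norm at most one -/
theorem var_norm {c : ℝ} (h0 : 0 < c) (h1 : c < 1) {f g : ℂ → ℂ} (h : Ext c f g)
    {s : Multiset ℂ} {v N : ℂ → ℂ} (hs : ∀ a ∈ s, ‖a‖ < c)
    (hv : DifferentiableOn ℂ v (ball 0 1)) (hN : DifferentiableOn ℂ N (ball 0 1))
    (hvi : IntegrableOn (fun z => ‖v z‖ ^ 2) (ball 0 1))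
    (hg : ∀ z ∈ ball (0 : ℂ) 1, g z = mm s z * v z)
    (hf : ∀ z ∈ ball (0 : ℂ) 1, f z = (KF c : ℂ) * v z * N z)
    (hN1 : ∀ z : ℂ, c ≤ ‖z‖ → ‖z‖ < 1 → ‖N z‖ ≤ ‖mm s z‖)
    (hN2 : ∀ z ∈ ball (0 : ℂ) 1, ‖N z‖ ≤ ‖mr s z‖)
    {k : ℂ → ℂ} (hk : ContinuousOn k (sphere (0 : ℂ) c))
    (hk1 : ∀ z : ℂ, ‖z‖ = c → ‖k z‖ = ‖mm s z‖ ^ 2 - ‖N z‖ ^ 2)
    {n : ℕ} {p q : ℂ[X]} (hp : p.natDegree ≤ n) (hq : q.natDegree ≤ n) {y : ℂ → ℂ} {C : ℝ}
    (hyd : DifferentiableOn ℂ y (ball 0 1))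
    (hy : ∀ z ∈ ball (0 : ℂ) 1, z ^ n * y z = p.eval z * (N z / mr s z) - q.eval z)
    (hky : ∀ z : ℂ, ‖z‖ = c → ‖y z‖ ≤ C * ‖k z‖)
    (hku : ∀ z : ℂ, ‖z‖ = c →
      ‖(rv n p).eval z - (rv n q).eval z * (N z / mr s z)‖ ≤ C * ‖k z‖) :
    ∃ t₀ > 0, ∀ τ : ℂ, ‖τ‖ ≤ t₀ →
      sq (fun z => (KF c : ℂ) * v z * mr s z * (N z / mr s z -
        τ * ((rv n p).eval z - (rv n q).eval z * (N z / mr s z))) /
          (1 - (starRingEnd ℂ) τ * y z)) 1 ≤ 1 := by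
  have hF := kf_pos' h0 h1
  have hs1 : ∀ a ∈ s, ‖a‖ < 1 := fun a ha => (hs a ha).trans h1
  have hmr : ∀ z : ℂ, ‖z‖ ≤ 1 → mr s z ≠ 0 := fun z hz => mr_ne hs1 hz
  have hmb : ∀ z ∈ ball (0 : ℂ) 1, mr s z ≠ 0 := fun z hz => hmr z (mem_ball_zero_iff.1 hz).le
  set I : ℂ → ℂ := fun z => N z / mr s z with hI
  set U : ℂ → ℂ := fun z => (rv n p).eval z - (rv n q).eval z * I z with hU
  have hId : DifferentiableOn ℂ I (ball 0 1) := hN.div (mr_diff s).differentiableOn hmb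
  have hUd : DifferentiableOn ℂ U (ball 0 1) :=
    (Polynomial.differentiable _).differentiableOn.sub
      ((Polynomial.differentiable _).differentiableOn.mul hId)
  have hI1 : ∀ z ∈ ball (0 : ℂ) 1, ‖I z‖ ≤ 1 := by
    intro z hz
    rw [hI]
    show ‖N z / mr s z‖ ≤ 1
    rw [norm_div, div_le_one (norm_pos_iff.2 (hmb z hz))]
    exact hN2 z hz
  have hsp : sphere (0 : ℂ) c ⊆ ball (0 : ℂ) 1 := by
    intro z hz
    rw [mem_sphere_zero_iff_norm] at hz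
    rw [mem_ball_zero_iff, hz]
    exact h1
  obtain ⟨M, hM⟩ := y_bdd hI1 hyd hy
  obtain ⟨M₂, hM₂⟩ := (isCompact_closedBall (0 : ℂ) 1).exists_bound_of_continuousOn
    (f := fun z : ℂ => (rv n p).eval z) (by fun_prop)
  obtain ⟨M₃, hM₃⟩ := (isCompact_closedBall (0 : ℂ) 1).exists_bound_of_continuousOn
    (f := fun z : ℂ => (rv n q).eval z) (by fun_prop)
  obtain ⟨M₄, hM₄⟩ := (isCompact_closedBall (0 : ℂ) 1).exists_bound_of_continuousOn
    (f := fun z : ℂ => mr s z) (mr_cont s).continuousOn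
  have hM0 : 0 ≤ M := (norm_nonneg _).trans (hM 0 (by simp))
  have hM20 : 0 ≤ M₂ := (norm_nonneg _).trans (hM₂ 0 (by simp))
  have hM30 : 0 ≤ M₃ := (norm_nonneg _).trans (hM₃ 0 (by simp))
  have hM40 : 0 ≤ M₄ := (norm_nonneg _).trans (hM₄ 0 (by simp))
  obtain ⟨t₁, ht₁, Ht₁⟩ := inner_circle (κ := 0) (C := C) (hN.continuousOn.mono hsp)
    (mm_cont s).continuousOn (mr_cont s).continuousOn (hUd.continuousOn.mono hsp) hk hk1 hku hky
  set t₂ : ℝ := 1 / (M₂ + M₃ + 1) with ht₂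
  set t₃ : ℝ := 1 / (2 * (M + 1)) with ht₃
  have ht₂0 : 0 < t₂ := by positivity
  have ht₃0 : 0 < t₃ := by positivity
  refine ⟨min t₁ (min t₂ t₃), lt_min ht₁ (lt_min ht₂0 ht₃0), fun τ hτ => ?_⟩
  have hτ1 : ‖τ‖ ≤ t₁ := hτ.trans (min_le_left _ _)
  have hτ2 : ‖τ‖ ≤ t₂ := hτ.trans ((min_le_right _ _).trans (min_le_left _ _))
  have hτ3 : ‖τ‖ ≤ t₃ := hτ.trans ((min_le_right _ _).trans (min_le_right _ _))
  have a1 : ∀ z : ℂ, ‖z‖ ≤ 1 → ‖τ‖ * (‖(rv n p).eval z‖ + ‖(rv n q).eval z‖) ≤ 1 := by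
    intro z hz
    have h2 := hM₂ z (mem_closedBall_zero_iff.2 hz)
    have h3 := hM₃ z (mem_closedBall_zero_iff.2 hz)
    calc ‖τ‖ * (‖(rv n p).eval z‖ + ‖(rv n q).eval z‖) ≤ t₂ * (M₂ + M₃ + 1) :=
          mul_le_mul hτ2 (by linarith) (by positivity) ht₂0.le
      _ = 1 := by
          rw [ht₂]
          exact one_div_mul_cancel (by positivity)
  have a2 : ∀ z ∈ ball (0 : ℂ) 1, ‖τ‖ * ‖y z‖ ≤ 1 / 2 := by
    intro z hz
    have h2 := hM z hz
    calc ‖τ‖ * ‖y z‖ ≤ t₃ * (M + 1) := mul_le_mul hτ3 (by linarith) (norm_nonneg _) ht₃0.le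
      _ = 1 / 2 := by
          rw [ht₃]
          field_simp
  have a3 : ∀ z ∈ ball (0 : ℂ) 1, 1 / 2 ≤ ‖1 - (starRingEnd ℂ) τ * y z‖ := by
    intro z hz
    have h2 := a2 z hz
    have h3 := norm_sub_norm_le (1 : ℂ) ((starRingEnd ℂ) τ * y z)
    rw [norm_one, norm_mul, RCLike.norm_conj] at h3
    linarith
  have a4 : ∀ z ∈ ball (0 : ℂ) 1, 1 - (starRingEnd ℂ) τ * y z ≠ 0 := by
    intro z hz h2
    have h3 := a3 z hz
    rw [h2, norm_zero] at h3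
    linarith
  have a5 : ∀ z ∈ ball (0 : ℂ) 1, ‖I z - τ * U z‖ ≤ 2 := by
    intro z hz
    have h2 := a1 z (mem_ball_zero_iff.1 hz).le
    have h3 := hI1 z hz
    have h4 : ‖U z‖ ≤ ‖(rv n p).eval z‖ + ‖(rv n q).eval z‖ := by
      refine (norm_sub_le _ _).trans ?_
      rw [norm_mul]
      have := mul_le_of_le_one_right (norm_nonneg ((rv n q).eval z)) h3
      linarith
    have h5 := norm_sub_le (I z) (τ * U z)
    rw [norm_mul] at h5
    have h6 := mul_le_mul_of_nonneg_left h4 (norm_nonneg τ)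
    linarith
  -- the inequality on the annulus
  have key := ann23 (A := fun z => mr s z * (I z - τ * U z))
    (B := fun z => mm s z * (1 - (starRingEnd ℂ) τ * y z))
    ((mr_diff s).differentiableOn.mul (hId.sub (hUd.const_mul _)))
    ((mm_diff s).differentiableOn.mul ((hyd.const_mul _).const_sub 1))
    (fun z hz hz1 => mul_ne_zero (mm_ne fun a ha => (hs a ha).trans_le hz)
      (a4 z (mem_ball_zero_iff.2 hz1)))
    (fun z hz => by
      have h2 := Ht₁ τ hτ1 z hz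
      have hz1 : ‖z‖ ≤ 1 := by rw [hz]; exact h1.le
      have e : mr s z * (I z - τ * U z) = N z - τ * (mr s z * U z) := by
        have : mr s z * I z = N z := mul_div_cancel₀ _ (hmr z hz1)
        linear_combination this
      show ‖mr s z * (I z - τ * U z)‖ ≤ ‖mm s z * (1 - (starRingEnd ℂ) τ * y z)‖
      rw [e]
      exact h2)
    (fun δ hδ => by
      set δ' : ℝ := min 1 (δ / 3) with hδ'
      have hδ0 : 0 < δ' := lt_min one_pos (by positivity)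
      have hδ2 : (1 + δ') ^ 2 ≤ 1 + δ := by
        have := min_le_left 1 (δ / 3)
        have := min_le_right 1 (δ / 3)
        nlinarith
      obtain ⟨r₁, hr₁, H₁⟩ := prod_near (s := s) hs1 hδ0
      obtain ⟨r₂, hr₂, H₂⟩ := near_bdry hp hq hI1 hy a1 a2 hδ0
      refine ⟨max r₁ r₂, max_lt hr₁ hr₂, fun z hz hz1 => ?_⟩
      obtain ⟨-, -, -, b1⟩ := H₁ z ((le_max_left _ _).trans hz) hz1.le
      have b2 := H₂ z ((le_max_right _ _).trans hz) hz1
      change ‖mr s z‖ ≤ (1 + δ') * ‖mm s z‖ at b1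
      change ‖I z - τ * U z‖ ≤ (1 + δ') * ‖1 - (starRingEnd ℂ) τ * y z‖ at b2
      show ‖mr s z * (I z - τ * U z)‖ ≤ (1 + δ) * ‖mm s z * (1 - (starRingEnd ℂ) τ * y z)‖
      rw [norm_mul, norm_mul]
      calc ‖mr s z‖ * ‖I z - τ * U z‖ ≤
            ((1 + δ') * ‖mm s z‖) * ((1 + δ') * ‖1 - (starRingEnd ℂ) τ * y z‖) :=
            mul_le_mul b1 b2 (norm_nonneg _) (by positivity)
        _ = (1 + δ') ^ 2 * (‖mm s z‖ * ‖1 - (starRingEnd ℂ) τ * y z‖) := by ring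
        _ ≤ (1 + δ) * (‖mm s z‖ * ‖1 - (starRingEnd ℂ) τ * y z‖) :=
            mul_le_mul_of_nonneg_right hδ2 (by positivity))
  have hfd : DifferentiableOn ℂ (fun z => (KF c : ℂ) * v z * mr s z * (I z - τ * U z) /
      (1 - (starRingEnd ℂ) τ * y z)) (ball 0 1) :=
    ((((hv.const_mul _).mul (mr_diff s).differentiableOn).mul (hId.sub (hUd.const_mul _))).div
      ((hyd.const_mul _).const_sub 1) a4)
  have hfi : IntegrableOn (fun z => ‖(KF c : ℂ) * v z * mr s z * (I z - τ * U z) /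
      (1 - (starRingEnd ℂ) τ * y z)‖ ^ 2) (ball 0 1) := by
    refine Integrable.mono' (hvi.const_mul ((4 * KF c * M₄) ^ 2)) ?_ ?_
    · exact ContinuousOn.aestronglyMeasurable (hfd.continuousOn.norm.pow 2) measurableSet_ball
    · refine (ae_restrict_iff' measurableSet_ball).2 (Eventually.of_forall fun z hz => ?_)
      rw [Real.norm_eq_abs, abs_of_nonneg (by positivity), ← mul_pow]
      refine pow_le_pow_left₀ (norm_nonneg _) ?_ 2
      rw [norm_div, norm_mul, norm_mul, norm_mul, Complex.norm_real, Real.norm_eq_abs,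
        abs_of_pos hF, div_le_iff₀ (norm_pos_iff.2 (a4 z hz))]
      have h2 := a3 z hz
      have h3 := a5 z hz
      have h4 := hM₄ z (mem_closedBall_zero_iff.2 (mem_ball_zero_iff.1 hz).le)
      have h5 := norm_nonneg (v z)
      calc KF c * ‖v z‖ * ‖mr s z‖ * ‖I z - τ * U z‖ ≤ KF c * ‖v z‖ * M₄ * 2 :=
            mul_le_mul (mul_le_mul_of_nonneg_left h4 (by positivity)) h3 (norm_nonneg _)
              (by positivity)
        _ = 4 * KF c * M₄ * ‖v z‖ * (1 / 2) := by ring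
        _ ≤ 4 * KF c * M₄ * ‖v z‖ * ‖1 - (starRingEnd ℂ) τ * y z‖ :=
            mul_le_mul_of_nonneg_left h2 (by positivity)
  have hdom : Dom c (KF c) (fun z => (KF c : ℂ) * v z * mr s z * (I z - τ * U z) /
      (1 - (starRingEnd ℂ) τ * y z)) g := by
    intro z hz hz1
    have hzb : z ∈ ball (0 : ℂ) 1 := mem_ball_zero_iff.2 hz1
    have h2 : ‖mr s z * (I z - τ * U z)‖ ≤ ‖mm s z * (1 - (starRingEnd ℂ) τ * y z)‖ :=
      key z hz hz1
    show ‖(KF c : ℂ) * v z * mr s z * (I z - τ * U z) / (1 - (starRingEnd ℂ) τ * y z)‖ ≤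
      KF c * ‖g z‖
    rw [norm_div, div_le_iff₀ (norm_pos_iff.2 (a4 z hzb)), hg z hzb, mul_assoc _ (mr s z),
      norm_mul, norm_mul, Complex.norm_real, Real.norm_eq_abs, abs_of_pos hF]
    calc KF c * ‖v z‖ * ‖mr s z * (I z - τ * U z)‖ ≤
          KF c * ‖v z‖ * ‖mm s z * (1 - (starRingEnd ℂ) τ * y z)‖ :=
          mul_le_mul_of_nonneg_left h2 (by positivity)
      _ = KF c * ‖mm s z * v z‖ * ‖1 - (starRingEnd ℂ) τ * y z‖ := by
          rw [norm_mul, norm_mul]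
          ring
  have h3 := dom_norm h0 h1 hF.le hfd hfi h.2.1.1 h.2.1.2.1 hdom
  have h4 : sq g 1 = 1 := h.2.1.2.2
  rw [h4, mul_one] at h3
  exact (mul_le_iff_le_one_right (by positivity)).1 h3

end Pool.Agent.Helper23.KU
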