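import Pool.Agent.Helper23.KU.Bdry
import Pool.Agent.Helper33.KU.Uni

/-!
# KR: a rational quotient of an extremal pair has constant modulus on the unit circle
-/

set_option autoImplicit false

namespace Pool.Agent.Helper23.KU

open Polynomial Filter Topology Metric MeasureTheory Set
open Pool.Agent.Helper23.KB (Sph Dom KF Ext sq)

theorem circ_of_rat {c : ℝ} (h0 : 0 < c) (h1 : c < 1) {f g : ℂ → ℂ} (h : Ext c f g) {p q : ℂ[X]}
    (hq : q ≠ 0) (hpq : ∀ z ∈ ball (0 : ℂ) 1, q.eval z * f z = p.eval z * g z) :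
    ∃ p' q' : ℂ[X],
      (∀ z : ℂ, ‖z‖ = 1 → q'.eval z ≠ 0 ∧ ‖p'.eval z‖ = KF c * ‖q'.eval z‖) ∧
      ∀ z ∈ ball (0 : ℂ) 1, q'.eval z * f z = p'.eval z * g z := by
  have hF := kf_pos' h0 h1
  obtain ⟨p', q', Y, hco, hY, hYi, hf, hg⟩ := pair_form h.1.1 h.2.1.1 h.1.2.1 h.2.1.2.1 hq hpq
  have hY0 : ∃ z ∈ ball (0 : ℂ) 1, Y z ≠ 0 := by
    obtain ⟨z, hz, hz0⟩ := sph_ne h.1
    exact ⟨z, hz, fun h2 => hz0 (by rw [hf z hz, h2, mul_zero])⟩
  refine ⟨p', q', fun z hz => ?_, fun z hz => ?_⟩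
  · have hu := unimod h0 h1 h hco hY hYi hf hg (d := max p'.natDegree q'.natDegree)
      (le_max_left _ _) (le_max_right _ _)
    have h2 := congrArg (Polynomial.eval z) hu
    rw [eval_mul, eval_mul, eval_mul, eval_C, rv_eval (le_max_left _ _) hz,
      rv_eval (le_max_right _ _) hz] at h2
    have h3 := congrArg norm h2
    simp only [norm_mul, norm_pow, hz, one_pow, RCLike.norm_conj, one_mul, Complex.norm_real,
      Real.norm_eq_abs, abs_of_pos hF] at h3
    have h4 : ‖p'.eval z‖ = KF c * ‖q'.eval z‖ := by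
      have h5 : ‖p'.eval z‖ ^ 2 = (KF c * ‖q'.eval z‖) ^ 2 := by linear_combination h3
      exact (sq_eq_sq₀ (norm_nonneg _) (by positivity)).1 h5
    refine ⟨fun h5 => ?_, h4⟩
    rw [h5, norm_zero, mul_zero] at h4
    have h6 : p'.eval z = 0 := norm_eq_zero.1 h4
    obtain ⟨a, b, hab⟩ := hco
    have h7 := congrArg (Polynomial.eval z) hab
    rw [eval_add, eval_mul, eval_mul, h5, h6, eval_one] at h7
    simp at h7
  · rw [hf z hz, hg z hz]
    ring

end Pool.Agent.Helper23.KU
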